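import Pool.Agent.Helper93.TCU.Stmts
import Pool.Agent.Helper93.TCU.Bas

/-!
# There are few bad options
-/

set_option autoImplicit false

namespace Pool.TCU

open Pool.TC Pool.TCM Pool.TCS Finset
open scoped Classical

section

variable {V κ : Type} [Fintype V] [Fintype κ] {S : CS V κ} {U : Finset V} {L : V → Finset κ}
  {K : ℕ} {o : V → κ}

private noncomputable def Nc (S : CS V κ) (U : Finset V) (o : V → κ) (u : V) : Finset V :=
  univ.filter (fun w => w ∈ U ∧ conf S o u w)

private theorem Nc_le (ho : Cho S U L K o) {u : V} (hu : u ∈ U) :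
    (Nc S U o u).card ≤ 2 * K := by
  have h1 : Nc S U o u ⊆ KP S U o u (o u) ∪
      univ.filter (fun w => w ∈ U ∧ S.r w (o w) = S.r u (o u)) := by
    intro w hw
    simp only [Nc, mem_filter, mem_univ, true_and] at hw
    obtain ⟨hwU, hne, h | h⟩ := hw
    · apply mem_union_left
      simp only [KP, mem_filter, mem_univ, true_and]
      exact ⟨hwU, h.1, h.2.symm⟩
    · apply mem_union_right
      simp only [mem_filter, mem_univ, true_and]
      exact ⟨hwU, h.symm⟩
  calc (Nc S U o u).card ≤ _ := card_le_card h1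
    _ ≤ _ := card_union_le _ _
    _ ≤ K + K := Nat.add_le_add (ho.kP u hu (o u) (ho.mem u hu)) (ho.kR _)
    _ = 2 * K := by ring

private theorem cb_le (ho : Cho S U L K o) {u : V} (hu : u ∈ U) :
    (cb S U o u).card ≤ 2 * K + 2 * K * (2 * K) := by
  have h1 : cb S U o u ⊆ Nc S U o u ∪ (Nc S U o u).biUnion (fun v => Nc S U o v) := by
    intro w hw
    simp only [cb, mem_filter, mem_univ, true_and] at hw
    obtain ⟨hwU, h | ⟨v, hvU, h1, h2⟩⟩ := hw
    · apply mem_union_left
      simp only [Nc, mem_filter, mem_univ, true_and]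
      exact ⟨hwU, h⟩
    · apply mem_union_right
      rw [mem_biUnion]
      refine ⟨v, ?_, ?_⟩
      · simp only [Nc, mem_filter, mem_univ, true_and]
        exact ⟨hvU, h1⟩
      · simp only [Nc, mem_filter, mem_univ, true_and]
        exact ⟨hwU, h2⟩
  have h2 : ((Nc S U o u).biUnion (fun v => Nc S U o v)).card ≤ (Nc S U o u).card * (2 * K) := by
    apply card_biUnion_le_card_mul
    intro v hv
    simp only [Nc, mem_filter, mem_univ, true_and] at hv
    exact Nc_le ho hv.1
  calc (cb S U o u).card ≤ _ := card_le_card h1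
    _ ≤ _ := card_union_le _ _
    _ ≤ 2 * K + 2 * K * (2 * K) := Nat.add_le_add (Nc_le ho hu)
        (h2.trans (Nat.mul_le_mul_right _ (Nc_le ho hu)))

end

/-- There are at most `10 K²` bad options. -/
theorem thm_Bad : St_Bad := by
  intro V κ _ _ S U L D l m K x q Lam o h ho u hu
  have hsub : (L u).filter (fun a => Bad S U o u a) ⊆
      (cb S U o u).image o ∪ (cb S U o u).biUnion
        (fun w => (L u).filter (fun a => S.r w (o w) = S.r u a)) := by
    intro a ha
    rw [mem_filter] at ha
    obtain ⟨haL, w, hw, h1 | h1⟩ := ha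
    · apply mem_union_left
      simp only [KP, mem_filter, mem_univ, true_and] at h1
      exact mem_image.2 ⟨w, hw, h1.2.2⟩
    · apply mem_union_right
      simp only [KR, mem_filter, mem_univ, true_and] at h1
      exact mem_biUnion.2 ⟨w, hw, mem_filter.2 ⟨haL, h1.2.2⟩⟩
  have h2 : ((cb S U o u).biUnion
      (fun w => (L u).filter (fun a => S.r w (o w) = S.r u a))).card ≤
      (cb S U o u).card * 1 := by
    apply card_biUnion_le_card_mul
    intro w _
    rw [card_le_one]
    intro a ha b hb
    rw [mem_filter] at ha hb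
    exact h.inj2 u hu a ha.1 b hb.1 (ha.2.symm.trans hb.2)
  have h3 := cb_le ho hu
  have h4 : ((cb S U o u).image o).card ≤ (cb S U o u).card := card_image_le
  have h5 := (card_le_card hsub).trans (card_union_le _ _)
  have h6 : 2 * (2 * K + 2 * K * (2 * K)) ≤ 10 * K ^ 2 := by
    have := h.K24
    nlinarith
  calc ((L u).filter (fun a => Bad S U o u a)).card ≤ _ := h5
    _ ≤ 2 * (2 * K + 2 * K * (2 * K)) := by omega
    _ ≤ 10 * K ^ 2 := h6

end Pool.TCU
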